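import Pool.Agent.H415.Nor

/-! Herstein's conjecture holds in every division ring that is not the additive group generated by
its additive commutators, and more generally whenever such a division subring meets the radical
normal subgroup in an element that is not central in the subring. -/

set_option autoImplicit false

namespace Pool.Agent.Results.MP_176fb9_al.AdditiveCommutators

universe u v

/-- Let `N` be a normal subgroup of `D*` that is radical over the centre of `D`. If `E` is a
division ring mapped into `D` by `φ` and an element `v` of `E*` with `φ v ∈ N` fails to commute with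
some element of `E`, then every element of `E` is a sum of additive commutators `a b - b a` of
elements of `E`. (With `E = D`: a radical normal subgroup is central unless `D = [D, D]`.) -/
theorem result {D : Type u} [DivisionRing D] (N : Subgroup Dˣ) (hnor : N.Normal)
    (hrad : ∀ x ∈ N, ∃ n : ℕ, 1 ≤ n ∧ (x : D) ^ n ∈ Subring.center D)
    {E : Type v} [DivisionRing E] (φ : E →+* D)
    (v : Eˣ) (hv : Units.map (φ : E →* D) v ∈ N) (x : E) (hvx : (v : E) * x ≠ x * v) :
    AddSubgroup.closure {c : E | ∃ a b : E, c = a * b - b * a} = ⊤ := by
  have hinj : Function.Injective φ := φ.injective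
  have hNE : (N.comap (Units.map (φ : E →* D))).Normal := hnor.comap _
  have hrE : ∀ u ∈ N.comap (Units.map (φ : E →* D)), ∃ n : ℕ, 0 < n ∧
      (u : E) ^ n ∈ Subring.center E := by
    intro u hu
    obtain ⟨n, hn, h⟩ := hrad _ (Subgroup.mem_comap.1 hu)
    refine ⟨n, hn, ?_⟩
    rw [Subring.mem_center_iff] at h ⊢
    intro g
    apply hinj
    have h1 := h (φ g)
    rw [map_mul, map_mul, map_pow]
    exact h1
  rw [eq_top_iff]
  intro d _
  exact Pool.Agent.H415.main_nor _ hNE hrE v (Subgroup.mem_comap.2 hv) x hvx d

end Pool.Agent.Results.MP_176fb9_al.AdditiveCommutators
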